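import Pool.Agent.PJC.Stmts

/-!
Squad PJC, row NUC (helper81): nuclear norm against operator norm.
-/

set_option autoImplicit false

open scoped BigOperators

namespace Pool.Agent.PJC.H81

variable {n : ℕ}

/-- the norm of a weighted sum of vectors with a bounded frame operator -/
theorem vec_bound {I : Type} [Fintype I] (w : I → ℝ) (p : I → Eu n) (L : ℝ) (hL : 0 ≤ L)
    (hw : ∀ i, 0 ≤ w i) (hp : ∀ z, ∑ i, w i * inner ℝ (p i) z ^ 2 ≤ L * ‖z‖ ^ 2) (f : I → ℝ) :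
    ‖∑ i, (w i * f i) • p i‖ ^ 2 ≤ L * ∑ i, w i * f i ^ 2 := by
  set P := ∑ i, (w i * f i) • p i with hP
  have h1 : ‖P‖ ^ 2 = ∑ i, w i * (f i * inner ℝ (p i) P) := by
    rw [← real_inner_self_eq_norm_sq]
    conv_lhs => rw [hP, sum_inner]
    refine Finset.sum_congr rfl fun i _ => ?_
    rw [real_inner_smul_left, ← hP]
    ring
  have h2 := wcs w f (fun i => inner ℝ (p i) P) hw
  rw [← h1] at h2
  have hS : 0 ≤ ∑ i, w i * f i ^ 2 := Finset.sum_nonneg fun i _ => mul_nonneg (hw i) (sq_nonneg _)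
  have h3 : (‖P‖ ^ 2) ^ 2 ≤ (∑ i, w i * f i ^ 2) * (L * ‖P‖ ^ 2) :=
    h2.trans (mul_le_mul_of_nonneg_left (hp P) hS)
  rcases eq_or_lt_of_le (sq_nonneg ‖P‖) with h0 | h0
  · rw [← h0]
    exact mul_nonneg hL hS
  · refine le_of_mul_le_mul_right ?_ h0
    calc ‖P‖ ^ 2 * ‖P‖ ^ 2 = (‖P‖ ^ 2) ^ 2 := by ring
      _ ≤ (∑ i, w i * f i ^ 2) * (L * ‖P‖ ^ 2) := h3
      _ = L * (∑ i, w i * f i ^ 2) * ‖P‖ ^ 2 := by ring

theorem cs_sqrt {ι : Type} [Fintype ι] (A B : ι → ℝ) (hA : ∀ l, 0 ≤ A l) (hB : ∀ l, 0 ≤ B l) :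
    ∑ l, √(A l) * √(B l) ≤ √(∑ l, A l) * √(∑ l, B l) := by
  rw [← Real.sqrt_mul (Finset.sum_nonneg fun l _ => hA l)]
  refine Real.le_sqrt_of_sq_le ?_
  have h := Finset.sum_mul_sq_le_sq_mul_sq Finset.univ (fun l => √(A l)) (fun l => √(B l))
  simp only [Real.sq_sqrt (hA _), Real.sq_sqrt (hB _)] at h
  exact h

/-- the estimate for a pair of states -/
theorem core {I J : Type} [Fintype I] [Fintype J] (w : I → ℝ) (w' : J → ℝ) (p x : I → Eu n)
    (q y : J → Eu n) (L : ℝ) (hL : 0 ≤ L) (hw : ∀ i, 0 ≤ w i) (hw' : ∀ j, 0 ≤ w' j)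
    (hp : ∀ z, ∑ i, w i * inner ℝ (p i) z ^ 2 ≤ L * ‖z‖ ^ 2)
    (hq : ∀ z, ∑ j, w' j * inner ℝ (q j) z ^ 2 ≤ L * ‖z‖ ^ 2) :
    |∑ i, w i * ∑ j, w' j * (inner ℝ (p i) (q j) * inner ℝ (x i) (y j))| ≤
      L * (√(∑ i, w i * ‖x i‖ ^ 2) * √(∑ j, w' j * ‖y j‖ ^ 2)) := by
  have h1 : ∑ i, w i * ∑ j, w' j * (inner ℝ (p i) (q j) * inner ℝ (x i) (y j)) =
      ∑ l, inner ℝ (∑ i, (w i * x i l) • p i) (∑ j, (w' j * y j l) • q j) := by
    have h2 : ∀ l, inner ℝ (∑ i, (w i * x i l) • p i) (∑ j, (w' j * y j l) • q j) =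
        ∑ i, ∑ j, w i * w' j * inner ℝ (p i) (q j) * (x i l * y j l) := by
      intro l
      rw [sum_inner]
      refine Finset.sum_congr rfl fun i _ => ?_
      rw [inner_sum]
      refine Finset.sum_congr rfl fun j _ => ?_
      rw [real_inner_smul_left, real_inner_smul_right]
      ring
    rw [Finset.sum_congr rfl fun l _ => h2 l, Finset.sum_comm]
    refine Finset.sum_congr rfl fun i _ => ?_
    rw [Finset.sum_comm, Finset.mul_sum]
    refine Finset.sum_congr rfl fun j _ => ?_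
    rw [PiLp.inner_apply (x i) (y j), Finset.mul_sum, Finset.mul_sum, Finset.mul_sum]
    refine Finset.sum_congr rfl fun l _ => ?_
    have h3 : inner ℝ (x i l) (y j l) = x i l * y j l := by
      rw [real_inner_comm]
      rfl
    rw [h3]
    ring
  rw [h1]
  have hA : ∀ l, 0 ≤ ∑ i, w i * (x i l) ^ 2 := fun l =>
    Finset.sum_nonneg fun i _ => mul_nonneg (hw i) (sq_nonneg _)
  have hB : ∀ l, 0 ≤ ∑ j, w' j * (y j l) ^ 2 := fun l =>
    Finset.sum_nonneg fun j _ => mul_nonneg (hw' j) (sq_nonneg _)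
  have hsA : ∑ l, ∑ i, w i * (x i l) ^ 2 = ∑ i, w i * ‖x i‖ ^ 2 := by
    rw [Finset.sum_comm]
    refine Finset.sum_congr rfl fun i _ => ?_
    rw [EuclideanSpace.real_norm_sq_eq, Finset.mul_sum]
  have hsB : ∑ l, ∑ j, w' j * (y j l) ^ 2 = ∑ j, w' j * ‖y j‖ ^ 2 := by
    rw [Finset.sum_comm]
    refine Finset.sum_congr rfl fun j _ => ?_
    rw [EuclideanSpace.real_norm_sq_eq, Finset.mul_sum]
  calc |∑ l, inner ℝ (∑ i, (w i * x i l) • p i) (∑ j, (w' j * y j l) • q j)|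
      ≤ ∑ l, |inner ℝ (∑ i, (w i * x i l) • p i) (∑ j, (w' j * y j l) • q j)| :=
        Finset.abs_sum_le_sum_abs _ _
    _ ≤ ∑ l, L * (√(∑ i, w i * (x i l) ^ 2) * √(∑ j, w' j * (y j l) ^ 2)) := by
        refine Finset.sum_le_sum fun l _ => ?_
        refine (abs_real_inner_le_norm _ _).trans ?_
        have h4 := vec_bound w p L hL hw hp (fun i => x i l)
        have h5 := vec_bound w' q L hL hw' hq (fun j => y j l)
        have h6 : ‖∑ i, (w i * x i l) • p i‖ ≤ √(L * ∑ i, w i * (x i l) ^ 2) :=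
          Real.le_sqrt_of_sq_le h4
        have h7 : ‖∑ j, (w' j * y j l) • q j‖ ≤ √(L * ∑ j, w' j * (y j l) ^ 2) :=
          Real.le_sqrt_of_sq_le h5
        refine (mul_le_mul h6 h7 (norm_nonneg _) (Real.sqrt_nonneg _)).trans (le_of_eq ?_)
        rw [Real.sqrt_mul hL, Real.sqrt_mul hL]
        have h8 := Real.mul_self_sqrt hL
        linear_combination (√(∑ i, w i * (x i l) ^ 2) * √(∑ j, w' j * (y j l) ^ 2)) * h8
    _ = L * ∑ l, √(∑ i, w i * (x i l) ^ 2) * √(∑ j, w' j * (y j l) ^ 2) := by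
        rw [Finset.mul_sum]
    _ ≤ L * (√(∑ i, w i * ‖x i‖ ^ 2) * √(∑ j, w' j * ‖y j‖ ^ 2)) := by
        refine mul_le_mul_of_nonneg_left ?_ hL
        rw [← hsA, ← hsB]
        exact cs_sqrt _ _ hA hB

/-- Jensen for the square root -/
theorem jensen {ι : Type} [Fintype ι] (μ A : ι → ℝ) (hμ : ∀ a, 0 ≤ μ a) (h1 : ∑ a, μ a = 1)
    (hA : ∀ a, 0 ≤ A a) : ∑ a, μ a * √(A a) ≤ √(∑ a, μ a * A a) := by
  refine Real.le_sqrt_of_sq_le ?_
  have h := wcs μ (fun a => √(A a)) (fun _ => 1) hμ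
  simp only [mul_one, one_pow, h1, Real.sq_sqrt (hA _)] at h
  exact h

theorem ex2_ab (s r : Side n) (F : s.A → s.I → r.A → r.I → ℝ) :
    ex2 s r F = ∑ a, s.μ a * ∑ b, r.μ b * ∑ i, s.w a i * ∑ j, r.w b j * F a i b j := by
  unfold ex2 Side.ex
  refine Finset.sum_congr rfl fun a _ => ?_
  congr 1
  have h1 : ∀ i, s.w a i * ∑ b, r.μ b * ∑ j, r.w b j * F a i b j =
      ∑ b, s.w a i * (r.μ b * ∑ j, r.w b j * F a i b j) := fun i => Finset.mul_sum _ _ _
  rw [Finset.sum_congr rfl fun i _ => h1 i, Finset.sum_comm]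
  refine Finset.sum_congr rfl fun b _ => ?_
  rw [Finset.mul_sum]
  refine Finset.sum_congr rfl fun i _ => ?_
  ring

/-- row NUC -/
theorem nuc : NucStmt := by
  intro n s r R Q K hn hs hr hK hv hR hQ
  have hn0 : (0 : ℝ) < n := by exact_mod_cast hn
  have hL : 0 ≤ K / n := div_nonneg hK hn0.le
  set α : s.A → ℝ := fun a => ∑ i, s.w a i * ‖s.V a i - s.v a i‖ ^ 2 with hα
  set β : s.A → ℝ := fun a => ∑ i, s.w a i * ‖s.V a i‖ ^ 2 with hβ
  set γ : r.A → ℝ := fun b => ∑ j, r.w b j * ‖r.V b j - r.v b j‖ ^ 2 with hγ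
  have hα0 : ∀ a, 0 ≤ α a := fun a =>
    Finset.sum_nonneg fun i _ => mul_nonneg (hs.w0 a i) (sq_nonneg _)
  have hβ0 : ∀ a, 0 ≤ β a := fun a =>
    Finset.sum_nonneg fun i _ => mul_nonneg (hs.w0 a i) (sq_nonneg _)
  have hγ0 : ∀ b, 0 ≤ γ b := fun b =>
    Finset.sum_nonneg fun i _ => mul_nonneg (hr.w0 b i) (sq_nonneg _)
  -- fixed states
  have hst : ∀ a b, |∑ i, s.w a i * ∑ j, r.w b j * (A1 s r R Q a i b j *
      (AA s r a i b j - BB s r a i b j))| ≤ K * (√(α a) + √(β a) * √(γ b)) := by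
    intro a b
    have h1 : ∀ i j, A1 s r R Q a i b j * (AA s r a i b j - BB s r a i b j) =
        n * (inner ℝ (R a (s.v a i)) (Q b (r.v b j)) * inner ℝ (s.v a i - s.V a i) (r.v b j)) +
        n * (inner ℝ (R a (s.v a i)) (Q b (r.v b j)) *
          inner ℝ (s.V a i) (r.v b j - r.V b j)) := by
      intro i j
      unfold A1 AA BB
      rw [inner_sub_left, inner_sub_right]
      have h2 := Real.mul_self_sqrt hn0.le
      linear_combination (inner ℝ (R a (s.v a i)) (Q b (r.v b j)) *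
        (inner ℝ (s.v a i) (r.v b j) - inner ℝ (s.V a i) (r.V b j))) * h2
    have h3 : ∑ i, s.w a i * ∑ j, r.w b j * (A1 s r R Q a i b j *
        (AA s r a i b j - BB s r a i b j)) =
        n * (∑ i, s.w a i * ∑ j, r.w b j * (inner ℝ (R a (s.v a i)) (Q b (r.v b j)) *
          inner ℝ (s.v a i - s.V a i) (r.v b j))) +
        n * (∑ i, s.w a i * ∑ j, r.w b j * (inner ℝ (R a (s.v a i)) (Q b (r.v b j)) *
          inner ℝ (s.V a i) (r.v b j - r.V b j))) := by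
      rw [Finset.mul_sum, Finset.mul_sum, ← Finset.sum_add_distrib]
      refine Finset.sum_congr rfl fun i _ => ?_
      rw [Finset.mul_sum, Finset.mul_sum, Finset.mul_sum, Finset.mul_sum, Finset.mul_sum,
        ← Finset.sum_add_distrib]
      refine Finset.sum_congr rfl fun j _ => ?_
      rw [h1]
      ring
    have h4 := core (s.w a) (r.w b) (fun i => R a (s.v a i)) (fun i => s.v a i - s.V a i)
      (fun j => Q b (r.v b j)) (fun j => r.v b j) (K / n) hL (hs.w0 a) (hr.w0 b) (hR.al a) (hQ.al b)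
    have h5 := core (s.w a) (r.w b) (fun i => R a (s.v a i)) (fun i => s.V a i)
      (fun j => Q b (r.v b j)) (fun j => r.v b j - r.V b j) (K / n) hL (hs.w0 a) (hr.w0 b)
      (hR.al a) (hQ.al b)
    have h6 : ∑ i, s.w a i * ‖s.v a i - s.V a i‖ ^ 2 = α a := by
      rw [hα]
      refine Finset.sum_congr rfl fun i _ => ?_
      rw [norm_sub_rev]
    have h7 : ∑ j, r.w b j * ‖r.v b j - r.V b j‖ ^ 2 = γ b := by
      rw [hγ]
      refine Finset.sum_congr rfl fun i _ => ?_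
      rw [norm_sub_rev]
    have h8 : √(∑ j, r.w b j * ‖r.v b j‖ ^ 2) ≤ 1 := by
      have h11 : ∑ j, r.w b j * ‖r.v b j‖ ^ 2 ≤ 1 := by
        rw [← hr.w1 b]
        refine Finset.sum_le_sum fun j _ => ?_
        have h12 : ‖r.v b j‖ ^ 2 ≤ 1 := pow_le_one₀ (norm_nonneg _) (hv b j)
        have h13 := mul_le_mul_of_nonneg_left h12 (hr.w0 b j)
        rwa [mul_one] at h13
      rw [← Real.sqrt_one]
      exact Real.sqrt_le_sqrt h11
    rw [h6] at h4
    rw [h7] at h5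
    rw [h3]
    have h9 : K / n * (√(α a) * √(∑ j, r.w b j * ‖r.v b j‖ ^ 2)) ≤ K / n * √(α a) := by
      refine mul_le_mul_of_nonneg_left ?_ hL
      calc √(α a) * √(∑ j, r.w b j * ‖r.v b j‖ ^ 2) ≤ √(α a) * 1 :=
            mul_le_mul_of_nonneg_left h8 (Real.sqrt_nonneg _)
        _ = √(α a) := mul_one _
    refine (abs_add_le _ _).trans ?_
    rw [abs_mul, abs_mul, abs_of_pos hn0]
    have h10 : (n : ℝ) * (K / n) = K := by field_simp
    calc _ ≤ n * (K / n * √(α a)) + n * (K / n * (√(β a) * √(γ b))) :=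
          add_le_add (mul_le_mul_of_nonneg_left (h4.trans h9) hn0.le)
            (mul_le_mul_of_nonneg_left h5 hn0.le)
      _ = (n * (K / n)) * (√(α a) + √(β a) * √(γ b)) := by ring
      _ = K * (√(α a) + √(β a) * √(γ b)) := by rw [h10]
  have hsum : |ex2 s r (fun a i b j => A1 s r R Q a i b j * (AA s r a i b j - BB s r a i b j))| ≤
      ∑ a, s.μ a * ∑ b, r.μ b * (K * (√(α a) + √(β a) * √(γ b))) := by
    rw [ex2_ab]
    refine (Finset.abs_sum_le_sum_abs _ _).trans ?_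
    refine Finset.sum_le_sum fun a _ => ?_
    rw [abs_mul, abs_of_nonneg (hs.mu0 a)]
    refine mul_le_mul_of_nonneg_left ?_ (hs.mu0 a)
    refine (Finset.abs_sum_le_sum_abs _ _).trans ?_
    refine Finset.sum_le_sum fun b _ => ?_
    rw [abs_mul, abs_of_nonneg (hr.mu0 b)]
    exact mul_le_mul_of_nonneg_left (hst a b) (hr.mu0 b)
  refine hsum.trans ?_
  have hval : ∑ a, s.μ a * ∑ b, r.μ b * (K * (√(α a) + √(β a) * √(γ b))) =
      K * (∑ a, s.μ a * √(α a) + (∑ a, s.μ a * √(β a)) * ∑ b, r.μ b * √(γ b)) := by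
    have h1 : ∀ a, s.μ a * ∑ b, r.μ b * (K * (√(α a) + √(β a) * √(γ b))) =
        K * (s.μ a * √(α a)) + K * (s.μ a * √(β a) * ∑ b, r.μ b * √(γ b)) := by
      intro a
      have h2 : ∑ b, r.μ b * (K * (√(α a) + √(β a) * √(γ b))) =
          K * √(α a) * ∑ b, r.μ b + K * √(β a) * ∑ b, r.μ b * √(γ b) := by
        rw [Finset.mul_sum, Finset.mul_sum, ← Finset.sum_add_distrib]
        refine Finset.sum_congr rfl fun b _ => ?_
        ring
      rw [h2, hr.mu1]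
      ring
    rw [Finset.sum_congr rfl fun a _ => h1 a, Finset.sum_add_distrib, ← Finset.mul_sum,
      ← Finset.mul_sum, ← Finset.sum_mul]
    ring
  rw [hval]
  refine mul_le_mul_of_nonneg_left ?_ hK
  have hJα := jensen s.μ α hs.mu0 hs.mu1 hα0
  have hJβ := jensen s.μ β hs.mu0 hs.mu1 hβ0
  have hJγ := jensen r.μ γ hr.mu0 hr.mu1 hγ0
  refine add_le_add hJα (mul_le_mul hJβ hJγ ?_ (Real.sqrt_nonneg _))
  exact Finset.sum_nonneg fun b _ => mul_nonneg (hr.mu0 b) (Real.sqrt_nonneg _)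

end Pool.Agent.PJC.H81
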